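import Pool.Agent.H23.AF.Targets
import Pool.Agent.H87.AE.HB

/-! Module B2: the intersection of the curve `a x ^ e + b y ^ f = E` with a curve of degree less
than `f` in `y` has a bounded number of points. -/

set_option autoImplicit false

namespace Pool.Agent.H69.AF

open Pool.Agent.H38.AE Pool.Agent.H23.AF Pool.Agent.H87.AE Polynomial

/-- The second curve as a polynomial in `y` over `ℚ[x]`. -/
noncomputable def W2 (J f : ℕ) (h : ℕ × ℕ → ℚ) : ℚ[X][X] :=
  ∑ m ∈ mon2 J f, C (C (h m) * X ^ m.1) * X ^ m.2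

theorem W2_coeff (J f : ℕ) (h : ℕ × ℕ → ℚ) (l : ℕ) :
    (W2 J f h).coeff l = ∑ m ∈ mon2 J f, if m.2 = l then C (h m) * X ^ m.1 else 0 := by
  rw [W2, Polynomial.finsetSum_coeff]
  refine Finset.sum_congr rfl (fun m _ => ?_)
  rw [Polynomial.coeff_C_mul_X_pow]
  by_cases hm : m.2 = l
  · rw [if_pos hm, if_pos hm.symm]
  · rw [if_neg hm, if_neg (fun h => hm h.symm)]

theorem mem_mon2 (J f : ℕ) (m : ℕ × ℕ) : m ∈ mon2 J f ↔ m.1 < J ∧ m.2 < f := by
  unfold mon2
  rw [Finset.mem_product, Finset.mem_range, Finset.mem_range]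

theorem W2_natDegree (J f : ℕ) (hf : 1 ≤ f) (h : ℕ × ℕ → ℚ) : (W2 J f h).natDegree < f := by
  have h1 : (W2 J f h).natDegree ≤ f - 1 := by
    rw [Polynomial.natDegree_le_iff_coeff_eq_zero]
    intro l hl
    rw [W2_coeff]
    refine Finset.sum_eq_zero (fun m hm => ?_)
    rw [mem_mon2] at hm
    rw [if_neg (by omega)]
  omega

theorem W2_coeff_natDegree (J f : ℕ) (h : ℕ × ℕ → ℚ) (l : ℕ) :
    ((W2 J f h).coeff l).natDegree ≤ J := by
  rw [W2_coeff]
  refine Polynomial.natDegree_sum_le_of_forall_le _ _ (fun m hm => ?_)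
  rw [mem_mon2] at hm
  split_ifs
  · refine (Polynomial.natDegree_C_mul_X_pow_le _ _).trans ?_
    omega
  · simp

theorem W2_ne_zero (J f : ℕ) (h : ℕ × ℕ → ℚ) (hh : ∃ m ∈ mon2 J f, h m ≠ 0) :
    W2 J f h ≠ 0 := by
  obtain ⟨m, hm, hm0⟩ := hh
  intro hW
  have h1 : ((W2 J f h).coeff m.2).coeff m.1 = 0 := by rw [hW]; simp
  rw [W2_coeff, Polynomial.finsetSum_coeff, Finset.sum_eq_single m] at h1
  · rw [if_pos rfl, Polynomial.coeff_C_mul_X_pow, if_pos rfl] at h1
    exact hm0 h1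
  · intro n _ hnm
    by_cases h2 : n.2 = m.2
    · rw [if_pos h2, Polynomial.coeff_C_mul_X_pow, if_neg]
      intro h1
      exact hnm (Prod.ext h1.symm h2)
    · rw [if_neg h2]; simp
  · intro h; exact absurd hm h

theorem W2_eval (J f : ℕ) (h : ℕ × ℕ → ℚ) (x y : ℚ) :
    ((W2 J f h).eval (C y)).eval x = ∑ m ∈ mon2 J f, h m * x ^ m.1 * y ^ m.2 := by
  rw [W2, Polynomial.eval_finsetSum, Polynomial.eval_finsetSum]
  refine Finset.sum_congr rfl (fun m _ => ?_)
  simp

theorem pf_B2 : T_B2 := by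
  intro J e f he0 hf0
  refine ⟨(f + f) * max e J, ?_⟩
  intro a b E ha hb hE h hh P hP
  have haq : (a : ℚ) ≠ 0 := by exact_mod_cast ha
  have hbq : (b : ℚ) ≠ 0 := by exact_mod_cast hb
  have hEq : (E : ℚ) ≠ 0 := by exact_mod_cast hE
  set u : ℚ := -((a : ℚ) / b) with hu
  set v : ℚ := (E : ℚ) / a with hv
  have hu0 : u ≠ 0 := neg_ne_zero.2 (div_ne_zero haq hbq)
  have hv0 : v ≠ 0 := div_ne_zero hEq haq
  set c : ℚ[X] := C u * ((X : ℚ[X]) ^ e - C v) with hc
  set F : ℚ[X][X] := (X : ℚ[X][X]) ^ f - C c with hF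
  have hFirr : Irreducible F := irr_F e f u v he0 hf0 hu0 hv0
  have hFmon : F.Monic := Polynomial.monic_X_pow_sub_C _ (by omega)
  have hFdeg : F.natDegree = f := Polynomial.natDegree_X_pow_sub_C
  have hW0 := W2_ne_zero J f h hh
  have hWd := W2_natDegree J f hf0 h
  set W := W2 J f h with hW
  have hr0 : resultant F W ≠ 0 := res_ne_zero F W hFirr hFmon hW0 (by omega)
  have hcdeg : c.natDegree ≤ e := by
    refine (Polynomial.natDegree_C_mul_le _ _).trans ?_
    rw [Polynomial.natDegree_X_pow_sub_C]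
  have hFc : ∀ l, (F.coeff l).natDegree ≤ max e J := by
    intro l
    rw [hF, Polynomial.coeff_sub, Polynomial.coeff_X_pow, Polynomial.coeff_C]
    refine (Polynomial.natDegree_sub_le _ _).trans (max_le ?_ ?_)
    · split_ifs <;> simp
    · split_ifs
      · exact hcdeg.trans (le_max_left _ _)
      · simp
  have hWc : ∀ l, (W.coeff l).natDegree ≤ max e J := fun l =>
    (W2_coeff_natDegree J f h l).trans (le_max_right _ _)
  have hrd : (resultant F W).natDegree ≤ (f + f) * max e J := by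
    refine (res_natDegree F W (max e J) hFc hWc).trans ?_
    rw [hFdeg]
    exact Nat.mul_le_mul_right _ (by omega)
  obtain ⟨p, q, -, -, hpq⟩ := exists_mul_add_mul_eq_C_resultant (m := F.natDegree)
    (n := W.natDegree) F W le_rfl le_rfl (Or.inl (by omega))
  -- common points are roots
  have hroot : ∀ t ∈ P, (resultant F W).IsRoot ((t.1 : ℤ) : ℚ) := by
    intro t ht
    obtain ⟨-, -, h1, h2⟩ := hP t ht
    have e1 : ((F.eval (C ((t.2 : ℤ) : ℚ))).eval ((t.1 : ℤ) : ℚ)) = 0 := by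
      have h1q : (a : ℚ) * (t.1 : ℚ) ^ e + b * (t.2 : ℚ) ^ f = E := by exact_mod_cast h1
      rw [hF, hc, hu, hv]
      simp only [eval_sub, eval_pow, eval_X, eval_C, eval_mul]
      field_simp
      linarith
    have e2 : ((W.eval (C ((t.2 : ℤ) : ℚ))).eval ((t.1 : ℤ) : ℚ)) = 0 := by
      rw [hW, W2_eval]; exact h2
    have h3 := congrArg (fun z : ℚ[X][X] =>
      (z.eval (C ((t.2 : ℤ) : ℚ))).eval ((t.1 : ℤ) : ℚ)) hpq
    simp only [eval_add, eval_mul, eval_C, e1, e2, zero_mul, zero_add] at h3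
    exact h3.symm
  have hinj : Set.InjOn (fun t : ℤ × ℤ => ((t.1 : ℤ) : ℚ)) (P : Set (ℤ × ℤ)) := by
    intro t ht t' ht' htt
    have htt0 : ((t.1 : ℤ) : ℚ) = ((t'.1 : ℤ) : ℚ) := htt
    have htt' : t.1 = t'.1 := by exact_mod_cast htt0
    obtain ⟨-, hy, h1, -⟩ := hP t ht
    obtain ⟨-, hy', h1', -⟩ := hP t' ht'
    have h2 : b * t.2 ^ f = b * t'.2 ^ f := by
      rw [htt'] at h1
      linarith
    have h3 : t.2 ^ f = t'.2 ^ f := mul_left_cancel₀ hb h2
    have h4 : t.2 = t'.2 := by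
      exact (pow_left_inj₀ (by omega) (by omega) (by omega)).1 h3
    exact Prod.ext htt' h4
  calc P.card = (P.image (fun t : ℤ × ℤ => ((t.1 : ℤ) : ℚ))).card :=
        (Finset.card_image_of_injOn hinj).symm
    _ ≤ (resultant F W).roots.toFinset.card := by
        refine Finset.card_le_card ?_
        intro x hx
        obtain ⟨t, ht, rfl⟩ := Finset.mem_image.1 hx
        rw [Multiset.mem_toFinset, Polynomial.mem_roots hr0]
        exact hroot t ht
    _ ≤ (resultant F W).roots.card := Multiset.toFinset_card_le _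
    _ ≤ (resultant F W).natDegree := Polynomial.card_roots' _
    _ ≤ (f + f) * max e J := hrd

end Pool.Agent.H69.AF
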